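import Pool.Agent.H87.QP.Targets

/-!
Row QPS: the two-point theorem with a shift chosen for every window.
-/

set_option autoImplicit false

namespace Pool.Agent.H36.QP

open Finset Pool.Agent.H18.MR Pool.Agent.H93.DE Pool.Agent.H6.N4D Pool.Agent.H93
  Pool.Agent.H93.ES Pool.Agent.H28.NW Pool.Agent.H87.QP

private lemma sum_shift (F : ℕ → ℝ) (n L : ℕ) :
    ∑ m ∈ Icc 1 L, F (n + m) = ∑ m ∈ Ioc n (n + L), F m := by
  have e : Ioc n (n + L) = (Icc 1 L).map (addLeftEmbedding n) := by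
    rw [Finset.map_add_left_Icc]
    ext x
    rw [mem_Ioc, mem_Icc]
    omega
  rw [e, sum_map]
  rfl

theorem pf_QPS (h : T_QPL) : T_QPS := by
  obtain ⟨c, K, hc, hH⟩ := h
  refine ⟨c, K, hc, fun H => ?_⟩
  obtain ⟨L₀, hL⟩ := hH H
  refine ⟨max L₀ 1, fun X L lam σ hLL hK hlam hσ => ?_⟩
  have h1 : 1 ≤ L := le_trans (le_max_right _ _) hLL
  have hL0 : (0 : ℝ) < L := by exact_mod_cast h1
  have h2 := hL X L lam (le_trans (le_max_left _ _) hLL) hK hlam
  have h3 : wlg X (fun n => |∑ m ∈ Icc 1 L, lam (n + m) * lam (n + m + σ n)|) ≤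
      wlg X (fun n => (L : ℝ) * mx H (fun h => |rh lam L n h|)) := by
    refine wlg_mono fun n _ => ?_
    have e1 : ∑ m ∈ Icc 1 L, lam (n + m) * lam (n + m + σ n) = L * rh lam L n (σ n) := by
      rw [sum_shift (fun t => lam t * lam (t + σ n)) n L]
      unfold rh
      rw [mul_div_cancel₀ _ hL0.ne']
    rw [e1, abs_mul, abs_of_pos hL0]
    exact mul_le_mul_of_nonneg_left
      (le_mx (fun h => |rh lam L n h|) (hσ n).1 (hσ n).2) hL0.le
  refine h3.trans ?_
  rw [wlg_mul]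
  calc (L : ℝ) * wlg X (fun n => mx H (fun h => |rh lam L n h|))
      ≤ L * ((1 - c) * X.L) := mul_le_mul_of_nonneg_left h2 hL0.le
    _ = (1 - c) * L * X.L := by ring

end Pool.Agent.H36.QP
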